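import Mathlib
import Pool.Agent.H92.R.Fin2

/-!
# Linnik's theorem for primes isolated by the longest known gaps, for every modulus

(1) For EVERY modulus `q ≤ X ^ κ` and EVERY reduced class modulo `q` there are primes `p ≤ X` of the class with no other prime
within `c log X log log X`. There is no condition on `q`, and no exceptional modulus. (2) For the moduli which are not divisible
by too many small primes the distance is `c` times the function of the longest prime gaps known (library result
`MP_c853c5_nt.LongerPrimeFree`), `log X (log₂ X)² log₄ X / (log₃ X)²`.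

The classes modulo `M` (the product of the primes up to a small multiple of `log X` which do not divide `q`) are those of
Rankin's method with a prime in the middle of the window (`Pool.Agent.TH101.RG.rsurvK`, library), in (1) they are trivial;
`≤ c log X` integers of the window are not covered. It remains to find primes in the class `b` modulo `Q = q M` which
are alone among these integers. For this the usual sieve bounds for pairs of primes lose a factor `log log X`; they are replaced by
the repelling weights of the library (`Pool.Agent.H256R2.SC`, `Pool.Agent.TH101.RG`), which are used here for the large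
modulus `Q` (own modules `Pool.Agent.H92.R.*`).
* If no exceptional modulus divides `Q`, the number of primes of the class is bounded below by the method of the library
  (`Pool.Agent.H262R3.Lk`), and the weights are evaluated by the large sieve relative to the primes of the class.
* Let the modulus of an exceptional character `χ` divide `Q`. The primes `r` with `χ r = 1` are rare in some long window of scales.
  If `χ b = -1`, the numbers of the class with exactly one prime factor with `χ = -1` are counted.
  If `χ b = 1`, the primes of the class are much rarer than expected and invisible for the large sieve and for upper bound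
  sieves; here primes and pairs of primes are counted with the weight `1 * χ` times the repelling weight. This needs a
  fundamental lemma which is uniform in mixtures: at each prime `p` of the weights the density of the sieve weight depends on the
  residue modulo `p`.
-/

set_option autoImplicit false

namespace Pool.Agent.Results.MP_c853c5_nt.IsolatedPrimesEveryModulus

open Finset Filter

/-- `F(x) = log x (log₂ x)² log₄ x / (log₃ x)²` (iterated natural logarithms). -/
noncomputable def F (x : ℝ) : ℝ :=
  Real.log x * Real.log (Real.log x) ^ 2 * Real.log (Real.log (Real.log (Real.log x))) /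
    (Real.log (Real.log (Real.log x))) ^ 2

/-- `T(x) = log₂ x log₄ x / (40 log₃ x)`. -/
noncomputable def T (x : ℝ) : ℝ :=
  Real.log (Real.log x) * Real.log (Real.log (Real.log (Real.log x))) /
    (40 * Real.log (Real.log (Real.log x)))

/-- The prime factors of `q` up to `log x` are few: the sum of their inverses is at most `A`, and the sum of the
inverses of those between `exp (T x)` and `log x` is at most `A / log log x`. -/
def Thin (A x : ℝ) (q : ℕ) : Prop :=
  ∑ p ∈ q.primeFactors.filter (fun p : ℕ => (p : ℝ) ≤ Real.log x), (1 : ℝ) / p ≤ A ∧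
  ∑ p ∈ q.primeFactors.filter (fun p : ℕ => (p : ℝ) ≤ Real.log x ∧ T x < Real.log p), (1 : ℝ) / p ≤
    A / Real.log (Real.log x)

/-- The primes `p ≤ x`, `p ≡ a (mod q)`, for which all other primes are at a distance larger than `d` from `p`. -/
def isolated (x d : ℝ) (q a : ℕ) : Set ℕ :=
  {p : ℕ | p.Prime ∧ (p : ℝ) ≤ x ∧ p ≡ a [MOD q] ∧ ∀ p' : ℕ, p'.Prime → p' ≠ p → d < |(p' : ℝ) - p|}

/-- The integers with at most `A` different prime factors up to `log x` are thin, for all large `x`. -/
theorem thin_of_few (A : ℕ) : ∃ x₀ : ℝ, ∀ x : ℝ, x₀ ≤ x → ∀ q : ℕ,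
    (q.primeFactors.filter (fun p : ℕ => (p : ℝ) ≤ Real.log x)).card ≤ A → Thin A x q := by
  have t1 := Real.tendsto_log_atTop
  have t2 : Tendsto (fun y : ℝ => Real.log (Real.log y)) atTop atTop := t1.comp t1
  have t3 : Tendsto (fun y : ℝ => Real.log (Real.log (Real.log y))) atTop atTop := t1.comp t2
  have t4 : Tendsto (fun y : ℝ => Real.log (Real.log (Real.log (Real.log y)))) atTop atTop := t1.comp t3
  have h1 := t3.eventually ((Real.tendsto_exp_div_pow_atTop 2).eventually_ge_atTop 40)
  obtain ⟨x₀, hx₀⟩ := eventually_atTop.1 (((h1.and (t2.eventually_ge_atTop 1)).and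
    ((t3.eventually_ge_atTop 1).and (t4.eventually_ge_atTop 1))))
  refine ⟨x₀, fun x hx q hq => ?_⟩
  obtain ⟨⟨e1, e2⟩, e3, e4⟩ := hx₀ x hx
  obtain ⟨u, hu⟩ : ∃ u, u = Real.log (Real.log x) := ⟨_, rfl⟩
  obtain ⟨v, hv⟩ : ∃ v, v = Real.log u := ⟨_, rfl⟩
  obtain ⟨w, hw⟩ : ∃ w, w = Real.log v := ⟨_, rfl⟩
  rw [← hu] at e1 e2 e3 e4
  rw [← hv] at e1 e3 e4
  rw [← hw] at e4
  have hu0 : 0 < u := by linarith
  have hv0 : 0 < v := by linarith
  have hA0 : (0 : ℝ) ≤ A := Nat.cast_nonneg A
  rw [show Real.exp v = u by rw [hv, Real.exp_log hu0], le_div_iff₀ (by positivity)] at e1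
  have hT : v ≤ T x := by
    unfold T
    rw [← hu, ← hv, ← hw, le_div_iff₀ (by positivity)]
    calc v * (40 * v) = 40 * v ^ 2 := by ring
      _ ≤ u * 1 := by linarith
      _ ≤ u * w := mul_le_mul_of_nonneg_left e4 hu0.le
  refine ⟨?_, ?_⟩
  · refine (sum_le_card_nsmul _ _ 1 fun p hp => ?_).trans ?_
    · rw [mem_filter] at hp
      have h2 : (1 : ℝ) ≤ p := by exact_mod_cast (Nat.prime_of_mem_primeFactors hp.1).one_lt.le
      rw [div_le_one (by linarith)]
      exact h2
    · rw [nsmul_eq_mul, mul_one]
      exact_mod_cast hq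
  · rw [← hu]
    refine (sum_le_card_nsmul _ _ (1 / u) fun p hp => ?_).trans ?_
    · rw [mem_filter] at hp
      have hp0 : (0 : ℝ) < p := by exact_mod_cast (Nat.prime_of_mem_primeFactors hp.1).pos
      apply one_div_le_one_div_of_le hu0
      have h2 : v < Real.log p := lt_of_le_of_lt hT hp.2.2
      have h3 := Real.exp_le_exp.2 h2.le
      rwa [Real.exp_log hp0, hv, Real.exp_log hu0] at h3
    · rw [nsmul_eq_mul, mul_one_div]
      apply div_le_div_of_nonneg_right _ hu0.le
      refine le_trans ?_ (show (((q.primeFactors.filter (fun p : ℕ => (p : ℝ) ≤ Real.log x)).card : ℕ) : ℝ) ≤ A by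
        exact_mod_cast hq)
      apply Nat.cast_le.2
      apply card_le_card
      intro p hp
      rw [mem_filter] at hp ⊢
      exact ⟨hp.1, hp.2.1⟩

/-- There is `κ > 0` with the following properties. (1) For some `c > 0` and all large `X`: for EVERY `q ≤ X ^ κ` and EVERY `a`
prime to `q` there are at least `X ^ κ` primes `p ≤ X`, `p ≡ a (mod q)`, such that no other prime lies within
`c log X log log X` of `p`. (2) For every `A`, some `c = c(A) > 0` and all large `X`: for every thin `q ≤ X ^ κ` and every `a` prime
to `q` the same holds with the distance `c F(X)`. -/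
theorem result : ∃ κ : ℝ, 0 < κ ∧
    (∃ c : ℝ, 0 < c ∧ ∃ X₀ : ℝ, ∀ X : ℝ, X₀ ≤ X → ∀ q : ℕ, 1 ≤ q → (q : ℝ) ≤ X ^ κ → ∀ a : ℕ, a.Coprime q →
      X ^ κ ≤ ((isolated X (c * (Real.log X * Real.log (Real.log X))) q a).ncard : ℝ)) ∧
    ∀ A : ℝ, ∃ c : ℝ, 0 < c ∧ ∃ X₀ : ℝ, ∀ X : ℝ, X₀ ≤ X → ∀ q : ℕ, 1 ≤ q → (q : ℝ) ≤ X ^ κ → Thin A X q →
      ∀ a : ℕ, a.Coprime q → X ^ κ ≤ ((isolated X (c * F X) q a).ncard : ℝ) := by
  obtain ⟨κ, hκ, h1, h2⟩ := Pool.Agent.H92.R.final2
  refine ⟨κ, hκ, h1, fun A => ?_⟩
  obtain ⟨c, hc, X₀, h⟩ := h2 A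
  exact ⟨c, hc, X₀, fun X hX q hq hqX hT a ha => h X hX q hq hqX hT.1 hT.2 a ha⟩

end Pool.Agent.Results.MP_c853c5_nt.IsolatedPrimesEveryModulus
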