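import Pool.Agent.H80.Pk.Fin

/-!
# Record prime gaps with nested centres free of almost primes

For every `k ≥ 4` and `0 < θ ≤ 1` there is `c > 0` such that for all large `x` some
`n ∈ (x, x + x ^ θ]` has

* no prime within `c log x (log log x)^2 (log log log log x) / (log log log x)^2`,
* no integer with at most two prime factors within `c log x log log x`,
* no integer with at most three prime factors within `c log x (log log x)^(1/3)`,
* no integer with at most `j` prime factors within `c log x / (log log log x)^(j-4)`, `4 ≤ j ≤ k`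

(prime factors are counted with multiplicity).
-/

namespace Pool.Agent.Results.MP_c853c5_nt.NestedAlmostPrimes

theorem result (k : ℕ) (hk : 4 ≤ k) (θ : ℝ) (h0 : 0 < θ) (h1 : θ ≤ 1) :
    ∃ c : ℝ, 0 < c ∧ ∃ x₀ : ℝ, ∀ x : ℝ, x₀ ≤ x →
    ∃ n : ℕ, x < n ∧ (n : ℝ) ≤ x + x ^ θ ∧
      (∀ m : ℕ, |(m : ℝ) - n| ≤ c * (Real.log x * (Real.log (Real.log x)) ^ 2 *
        Real.log (Real.log (Real.log (Real.log x))) / (Real.log (Real.log (Real.log x))) ^ 2) →
        ¬ m.Prime) ∧
      (∀ m : ℕ, |(m : ℝ) - n| ≤ c * (Real.log x * Real.log (Real.log x)) →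
        3 ≤ m.primeFactorsList.length) ∧
      (∀ m : ℕ, |(m : ℝ) - n| ≤ c * (Real.log x * (Real.log (Real.log x)) ^ (1 / 3 : ℝ)) →
        4 ≤ m.primeFactorsList.length) ∧
      ∀ j : ℕ, 4 ≤ j → j ≤ k → ∀ m : ℕ,
        |(m : ℝ) - n| ≤ c * (Real.log x / (Real.log (Real.log (Real.log x))) ^ (j - 4)) →
        j + 1 ≤ m.primeFactorsList.length := by
  obtain ⟨c, hc, x₀, h⟩ := Pool.Agent.H80.Pk.shortK k (by omega) θ h0 h1
  refine ⟨c, hc, x₀, fun x hx => ?_⟩
  obtain ⟨n, n1, n2, n3⟩ := h x hx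
  refine ⟨n, n1, n2, fun m hm hmp => ?_, fun m hm => n3 2 (by omega) (by omega) m hm,
    fun m hm => n3 3 (by omega) (by omega) m hm, fun j hj hjk m hm => ?_⟩
  · have h1 := n3 1 le_rfl (by omega) m hm
    rw [Nat.primeFactorsList_prime hmp] at h1
    simp at h1
  · obtain ⟨i, rfl⟩ : ∃ i, j = i + 4 := ⟨j - 4, by omega⟩
    rw [Nat.add_sub_cancel] at hm
    exact n3 (i + 4) (by omega) hjk m hm

end Pool.Agent.Results.MP_c853c5_nt.NestedAlmostPrimes
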