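import Pool.Agent.H80.Pc.Fin

/-!
# Clusters of primes which are alone among the integers with few prime factors

For every `M` there is `K` (with `K = 1` for `M = 1`) such that for every admissible set `T` of at least `K` natural
numbers and every `k` there is `c > 0` such that, for all large `x`, at least `x^(7/8)` numbers `n ∈ (x/2, 3x]` have
`M` primes among the numbers `n + t`, `t ∈ T`, while among the other integers there is

* no prime within `c log x (log log x)^2 (log log log log x) / (log log log x)^2` of `n`,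
* no number with at most two prime factors within `c log x (log log x) (log log log log x) / (log log log x)^2`,
* no number with at most `j` prime factors within `c log x / (log log log x)^(j-3)`, for `3 ≤ j ≤ k`

(prime factors are counted with multiplicity).
-/

namespace Pool.Agent.Results.MP_c853c5_nt.PrimeClustersAlone

theorem result (M : ℕ) : ∃ K : ℕ, (M = 1 → K = 1) ∧ ∀ T : Finset ℕ, K ≤ T.card →
    (∀ p : ℕ, p.Prime → ∃ v : ℕ, ∀ t ∈ T, ¬ p ∣ v + t) → ∀ k : ℕ, 3 ≤ k →
    ∃ c : ℝ, 0 < c ∧ ∃ x₀ : ℝ, ∀ x : ℝ, x₀ ≤ x →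
    x ^ (7 / 8 : ℝ) ≤ ({n : ℕ | x / 2 < n ∧ (n : ℝ) ≤ 3 * x ∧
      M ≤ (T.filter (fun t => (n + t).Prime)).card ∧
      ∀ m : ℕ, (∀ t ∈ T, m ≠ n + t) →
        (|(m : ℝ) - n| ≤ c * (Real.log x * (Real.log (Real.log x)) ^ 2 *
          Real.log (Real.log (Real.log (Real.log x))) / (Real.log (Real.log (Real.log x))) ^ 2) →
          ¬ m.Prime) ∧
        (|(m : ℝ) - n| ≤ c * (Real.log x * Real.log (Real.log x) *
          Real.log (Real.log (Real.log (Real.log x))) / (Real.log (Real.log (Real.log x))) ^ 2) →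
          3 ≤ m.primeFactorsList.length) ∧
        ∀ j : ℕ, 3 ≤ j → j ≤ k →
          |(m : ℝ) - n| ≤ c * (Real.log x / (Real.log (Real.log (Real.log x))) ^ (j - 3)) →
          j + 1 ≤ m.primeFactorsList.length}.ncard : ℝ) := by
  obtain ⟨K, hK1, hK⟩ := Pool.Agent.H80.Pc.final M
  refine ⟨K, hK1, fun T hT hadm k hk => ?_⟩
  obtain ⟨c, hc, x₀, h⟩ := hK T hT hadm k (by omega)
  refine ⟨c, hc, max x₀ 1, fun x hx => ?_⟩
  have hx0 := (le_max_left _ _).trans hx
  have hx1 : 1 ≤ x := (le_max_right _ _).trans hx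
  set S := {n : ℕ | x / 2 < n ∧ (n : ℝ) ≤ 3 * x ∧
      M ≤ (T.filter (fun t => (n + t).Prime)).card ∧
      ∀ m : ℕ, (∀ t ∈ T, m ≠ n + t) →
        (|(m : ℝ) - n| ≤ c * (Real.log x * (Real.log (Real.log x)) ^ 2 *
          Real.log (Real.log (Real.log (Real.log x))) / (Real.log (Real.log (Real.log x))) ^ 2) →
          ¬ m.Prime) ∧
        (|(m : ℝ) - n| ≤ c * (Real.log x * Real.log (Real.log x) *
          Real.log (Real.log (Real.log (Real.log x))) / (Real.log (Real.log (Real.log x))) ^ 2) →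
          3 ≤ m.primeFactorsList.length) ∧
        ∀ j : ℕ, 3 ≤ j → j ≤ k →
          |(m : ℝ) - n| ≤ c * (Real.log x / (Real.log (Real.log (Real.log x))) ^ (j - 3)) →
          j + 1 ≤ m.primeFactorsList.length} with hS
  have hfin : S.Finite := by
    apply (Set.finite_Iic ⌊3 * x⌋₊).subset
    intro p hp
    exact Set.mem_Iic.2 (Nat.le_floor hp.2.1)
  by_contra hcon
  push Not at hcon
  rw [Set.ncard_eq_toFinset_card S hfin] at hcon
  obtain ⟨n, hn, n1, n2, n3, n4⟩ := h x hx0 hfin.toFinset (hcon.le.trans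
    (Real.rpow_le_rpow_of_exponent_le hx1 (by norm_num)))
  apply hn
  rw [Set.Finite.mem_toFinset]
  refine ⟨n1, n2, ?_, fun m hm => ⟨fun h1 h2 => ?_, fun h1 => n4 2 (by omega) (by omega) m h1 hm,
    fun j hj hjk h1 => ?_⟩⟩
  · convert n3 using 1
  · have h3 := n4 1 le_rfl (by omega) m h1 hm
    rw [Nat.primeFactorsList_prime h2] at h3
    simp at h3
  · obtain ⟨i, rfl⟩ : ∃ i, j = i + 3 := ⟨j - 3, by omega⟩
    rw [Nat.add_sub_cancel] at h1
    exact n4 (i + 3) (by omega) hjk m h1 hm

end Pool.Agent.Results.MP_c853c5_nt.PrimeClustersAlone
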