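import Pool.Agent.H22.KG.Main

/-!
# Record gaps in sparse surroundings: the mean of the `k` nearest gaps is of Rankin's size, for all `k` at once

Author: helper22.

Let `R(x) = log x log₂ x log₄ x / (log₃ x)²` be Rankin's size, and `f(x) = R(x) log₂ x` the size of the largest
gaps between consecutive primes which the starting files establish. For every `ε > 0` there is `c > 0` such that,
for all large `X`, more than `X ^ (9/10)` integers `n` of `(X, 3X]` have the following property: for ALL
`k = 1, 2, …, exp (√(log log X))` fewer than `k` primes lie within

`c R(X) (log₂ X + k / ((1 + log (1 + k / log₂ X)) ^ (1 + ε) (1 + log k / log₃ X)))`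

of `n`. For `k = 1` there is no prime within `c f(X)` of `n`: `n` lies in a gap of record size. For `k ≤ C log₂ X`
the mean of the `k` gaps next to `n` (on each side, or on both sides together) is at least `c' R(X)`, without any
loss, for `k ≤ (log₂ X) ^ A` it is at least `c' R(X) / (log₃ X) ^ (1 + ε)`, and on the whole range of `k` it tends to
infinity against `log X`, as long as `k ≤ exp ((log₂ X) ^ (1/2 - ε'))`.

Proof. The big modulus is the product of the primes up to `y = log X / 1000` (up to the exceptional primes and the
primes left out by the relative theorem of Bombieri and Vinogradov of the starting files). The class is `0` for the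
primes up to `(log y) ^ 2` and above `y ^ (log₃ y / (10 log₂ y))`: up to `H = y e ^ t` there remain the numbers
`q m`, `q > y` prime, `m ≤ e ^ t` free of the small primes, in number at most
`C (H / log y) (1 + t / log₂ y)`, and few smooth numbers. The classes of the other primes are chosen by averaging
one weight, in which the windows of all the radii `2 ^ i c f(X)` take part, so that none of them keeps more than
`(1 + i) ^ (1 + ε)` times its expected share. The integers left in the innermost window are removed by the
repelling weights of the starting files, whose mass over the primes in all the shifted classes is now also bounded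
from above (change of densities, `Pool.Agent.H22.KG.EEQ_sharp`); the same weight of all the radii is summed over the
primes found in the outer windows, and its mean is the expected one up to a constant.
-/

set_option autoImplicit false

open Filter

namespace Pool.Agent.Results.MP_c853c5_nt.RecordGapsInSparseSurroundings

/-- Rankin's size `log x log₂ x log₄ x / (log₃ x)²` -/
noncomputable def R (x : ℝ) : ℝ :=
  Real.log x * Real.log (Real.log x) * Real.log (Real.log (Real.log (Real.log x))) /
    (Real.log (Real.log (Real.log x))) ^ 2

/-- `R(x) (log₂ x + k / ((1 + log (1 + k / log₂ x)) ^ (1 + ε) (1 + log k / log₃ x)))` -/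
noncomputable def D (ε x k : ℝ) : ℝ :=
  R x * (Real.log (Real.log x) + k / ((1 + Real.log (1 + k / Real.log (Real.log x))) ^ (1 + ε) *
    (1 + Real.log k / Real.log (Real.log (Real.log x)))))

/-- the primes at distance at most `d` from `n` -/
def near (n : ℕ) (d : ℝ) : Set ℕ := {p : ℕ | p.Prime ∧ |(p : ℝ) - n| ≤ d}

/-- the integers `n` of `(X, 3X]` which have, for all `k ≥ 1` up to `exp (√(log log X))` at once, fewer than `k`
primes at distance at most `c D(ε, X, k)` -/
def good (c ε X : ℝ) : Set ℕ :=
  {n : ℕ | X < n ∧ (n : ℝ) ≤ 3 * X ∧ ∀ k : ℕ, 1 ≤ k → (k : ℝ) ≤ Real.exp (Real.sqrt (Real.log (Real.log X))) →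
    (near n (c * D ε X k)).ncard < k}

/-- the sets of primes which are counted are finite -/
theorem near_finite (n : ℕ) (d : ℝ) : (near n d).Finite := by
  apply (Finset.finite_toSet (Finset.range (⌊(n : ℝ) + d⌋₊ + 1))).subset
  intro p hp
  rw [Finset.coe_range, Set.mem_Iio, Nat.lt_succ_iff]
  apply Nat.le_floor
  have := (abs_le.1 hp.2).2
  linarith

theorem good_finite (c ε X : ℝ) : (good c ε X).Finite := by
  apply (Finset.finite_toSet (Finset.range (⌊3 * X⌋₊ + 1))).subset
  intro n hn
  rw [Finset.coe_range, Set.mem_Iio, Nat.lt_succ_iff]
  exact Nat.le_floor hn.2.1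

/-- Record gaps in sparse surroundings. -/
theorem result (ε : ℝ) (hε : 0 < ε) :
    ∃ c : ℝ, 0 < c ∧ ∀ᶠ X : ℝ in atTop, X ^ (9 / 10 : ℝ) < ((good c ε X).ncard : ℝ) := by
  obtain ⟨c, hc, h⟩ := Pool.Agent.H22.KG.sparse ε hε
  refine ⟨c, hc, ?_⟩
  filter_upwards [h] with X hX
  by_contra hcon
  push Not at hcon
  have hfin := good_finite c ε X
  obtain ⟨n, h1, h2, h3, h4⟩ := hX hfin.toFinset (by
    rw [Set.ncard_eq_toFinset_card _ hfin] at hcon
    exact hcon)
  apply h3
  rw [Set.Finite.mem_toFinset]
  exact ⟨h1, h2, h4⟩

end Pool.Agent.Results.MP_c853c5_nt.RecordGapsInSparseSurroundings
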